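import Mathlib
import Pool.Agent.Q226.TM.Series

set_option autoImplicit false

/-!
# Hankel determinants of the inverse Thue-Morse series

Proof. If `F (G) = X` then `(1 + X) G = X ^ 3 G ^ 4 + X ^ 3 + X`, so the coefficients of `G` are
`c m = tau ((m + 1) / 2)` for `m ≥ 1`, where `tau j = 1` if all digits of `j` in base `4` are `0` or
`1`, and `tau j = 0` otherwise. A Hankel matrix of a sequence `x m = u (m / 2)` becomes, after
sorting the indices by parity and subtracting rows and columns, a direct sum of Hankel matrices of
half the size of `u` and of its difference sequence. As `tau m = kap (m / 2)` where `kap (2 m) =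
tau m`, `kap (2 m + 1) = 0`, the Hankel determinants of `tau` and of its difference sequence are, up
to sign, products of such determinants of smaller size.
-/

namespace Pool.Agent.Results.MP_ff738c_co.SmallHankel

open PowerSeries

/-- The Thue-Morse series `F = ∑ t_n X ^ n` over the field with two elements: `t_n` is the sum of
the binary digits of `n` modulo `2`. -/
noncomputable def F : PowerSeries (ZMod 2) :=
  PowerSeries.mk fun n => ((Nat.digits 2 n).sum : ZMod 2)

/-- The Hankel matrix `h_{p,n}` of the coefficients `c_m` of the series `G`, regarded as the integers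
`0` and `1`: the entry with indices `i, j` in `{1, …, n}` is `c_{p+i+j-1}`; here the indices are
`i, j` in `{0, …, n-1}`, so it is `c_{p+i+j+1}`. -/
noncomputable def hankel (G : PowerSeries (ZMod 2)) (p n : ℕ) : Matrix (Fin n) (Fin n) ℤ :=
  Matrix.of fun i j => ((coeff (p + i + j + 1) G).val : ℤ)

/-- **The answer to Q1 (yes).** The Thue-Morse series `F` has a compositional inverse `G`, it is the
only series without constant term with `F (G (X)) = X`, and all its Hankel determinants are `-1`,
`0` or `1`. -/
theorem result : ∃ G : PowerSeries (ZMod 2),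
    (constantCoeff G = 0 ∧ F.subst G = X ∧ G.subst F = X) ∧
    (∀ G' : PowerSeries (ZMod 2), constantCoeff G' = 0 → F.subst G' = X → G' = G) ∧
    ∀ p n : ℕ, (hankel G p n).det = -1 ∨ (hankel G p n).det = 0 ∨ (hankel G p n).det = 1 := by
  obtain ⟨G, h0, h1, h2⟩ := Q226.TM.exists_inverse
  exact ⟨G, ⟨h0, h1, h2⟩, fun G' h0' h1' => Q226.TM.unique G' G h0' h1' h0 h1,
    fun p n => Q226.TM.hankel_good G h0 h1 p n⟩

end Pool.Agent.Results.MP_ff738c_co.SmallHankel
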